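import Mathlib

/-!
The principle `P` (every infinite weakly stable partial order has an infinite stable suborder) as
a problem in the sense of Weihrauch, and the stable chain and stable sequence problems.
-/

namespace Pool.Agent.KS6_32.LX.E

open Set

/-- A problem on Baire space: its instances and, for every instance, its solutions. -/
structure Problem where
  /-- the instances -/
  dom : Set (ℕ → ℕ)
  /-- the solutions of an instance -/
  sol : (ℕ → ℕ) → Set (ℕ → ℕ)

/-- The binary relation on the natural numbers coded by `X`. -/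
def rel (X : ℕ → ℕ) (x y : ℕ) : Prop := X (Nat.pair x y) ≠ 0

/-- The field of the relation coded by `X`. -/
def field (X : ℕ → ℕ) : Set ℕ := {x | rel X x x}

/-- The set of natural numbers coded by `S`. -/
def supp (S : ℕ → ℕ) : Set ℕ := {x | S x ≠ 0}

/-- `X` codes a partial order on its field. -/
def IsPO (X : ℕ → ℕ) : Prop :=
  (∀ x y, rel X x y → x ∈ field X ∧ y ∈ field X) ∧
  (∀ x y, rel X x y → rel X y x → x = y) ∧
  (∀ x y z, rel X x y → rel X y z → rel X x z)

/-- `X` codes a linear order on its field. -/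
def IsLO (X : ℕ → ℕ) : Prop :=
  IsPO X ∧ ∀ x ∈ field X, ∀ y ∈ field X, rel X x y ∨ rel X y x

/-- `x` is below all but finitely many elements of `A`. -/
def Small (X : ℕ → ℕ) (A : Set ℕ) (x : ℕ) : Prop := {y ∈ A | ¬ rel X x y}.Finite

/-- `x` is above all but finitely many elements of `A`. -/
def Large (X : ℕ → ℕ) (A : Set ℕ) (x : ℕ) : Prop := {y ∈ A | ¬ rel X y x}.Finite

/-- `x` is incomparable with all but finitely many elements of `A`. -/
def Isolated (X : ℕ → ℕ) (A : Set ℕ) (x : ℕ) : Prop := {y ∈ A | rel X x y ∨ rel X y x}.Finite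

/-- The suborder on `A` is weakly stable. -/
def WeaklyStable (X : ℕ → ℕ) (A : Set ℕ) : Prop :=
  ∀ x ∈ A, Small X A x ∨ Large X A x ∨ Isolated X A x

/-- The suborder on `A` is stable. -/
def Stable (X : ℕ → ℕ) (A : Set ℕ) : Prop :=
  (∀ x ∈ A, Small X A x ∨ Isolated X A x) ∨ (∀ x ∈ A, Large X A x ∨ Isolated X A x)

/-- The principle `P`: given an infinite weakly stable partial order, find an infinite set of
elements which is stable as a suborder. -/
def PP : Problem where
  dom := {X | IsPO X ∧ (field X).Infinite ∧ WeaklyStable X (field X)}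
  sol X := {S | supp S ⊆ field X ∧ (supp S).Infinite ∧ Stable X (supp S)}

/-- The infinite linear orders in which every element has only finitely many predecessors or only
finitely many successors. -/
def StableLO : Set (ℕ → ℕ) :=
  {X | IsLO X ∧ (field X).Infinite ∧ ∀ x ∈ field X, {y | rel X y x}.Finite ∨ {y | rel X x y}.Finite}

/-- The problem `SADC`: given an infinite linear order in which every element has only finitely
many predecessors or only finitely many successors, find an infinite set of elements of order type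
`ω` or `ω*`. -/
def SADC : Problem where
  dom := StableLO
  sol X := {S | supp S ⊆ field X ∧ (supp S).Infinite ∧
    ((∀ x ∈ supp S, {y ∈ supp S | rel X y x}.Finite) ∨
      ∀ x ∈ supp S, {y ∈ supp S | rel X x y}.Finite)}

/-- The problem `SADS`: for the same instances, find an infinite ascending sequence or an infinite
descending sequence. -/
def SADS : Problem where
  dom := StableLO
  sol X := {a | (∀ n, a n ∈ field X) ∧
    ((∀ n, a n ≠ a (n + 1) ∧ rel X (a n) (a (n + 1))) ∨
      ∀ n, a n ≠ a (n + 1) ∧ rel X (a (n + 1)) (a n))}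

/-- The functional `Φ` of Baire space is computed by a primitive recursive function from a
primitive recursively bounded initial segment of the argument. -/
def PrimrecFunctional (Φ : (ℕ → ℕ) → ℕ → ℕ) : Prop :=
  ∃ (u : ℕ → ℕ) (g : List ℕ → ℕ → ℕ), Primrec u ∧ Primrec₂ g ∧
    ∀ X n, Φ X n = g ((List.range (u n)).map X) n

/-- Strong Weihrauch reducibility by means of two such functionals. -/
def StrongRed (A B : Problem) : Prop :=
  ∃ Φ Ψ : (ℕ → ℕ) → ℕ → ℕ, PrimrecFunctional Φ ∧ PrimrecFunctional Ψ ∧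
    ∀ X ∈ A.dom, Φ X ∈ B.dom ∧ ∀ S ∈ B.sol (Φ X), Ψ S ∈ A.sol X

/-- Continuous Weihrauch reducibility (the functionals are only continuous, and the backward one
may use the instance); it is implied by Weihrauch reducibility. -/
def ContRed (A B : Problem) : Prop :=
  ∃ (Φ : (ℕ → ℕ) → (ℕ → ℕ)) (Ψ : (ℕ → ℕ) × (ℕ → ℕ) → (ℕ → ℕ)), ContinuousOn Φ A.dom ∧
    ContinuousOn Ψ {p | p.1 ∈ A.dom ∧ p.2 ∈ B.sol (Φ p.1)} ∧
    ∀ X ∈ A.dom, Φ X ∈ B.dom ∧ ∀ S ∈ B.sol (Φ X), Ψ (X, S) ∈ A.sol X

/-! ### The linear order -/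

/-- `x` comes before `y` in the lexicographic comparison. -/
def Lex (X : ℕ → ℕ) (x y : ℕ) : Prop :=
  ∃ z, rel X x z ∧ ¬ rel X y z ∧ ∀ w < z, (rel X x w ↔ rel X y w)

/-- one step of the comparison -/
def stp (a b r : ℕ) : ℕ := if a = 0 then (if b = 0 then r else 0) else (if b = 0 then 1 else r)

/-- the comparison on an initial segment -/
def cmp (X : ℕ → ℕ) (x y m r : ℕ) : ℕ :=
  (List.range m).foldr (fun z r => stp (X (Nat.pair x z)) (X (Nat.pair y z)) r) r

theorem cmp_succ (X : ℕ → ℕ) (x y m r : ℕ) :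
    cmp X x y (m + 1) r = cmp X x y m (stp (X (Nat.pair x m)) (X (Nat.pair y m)) r) := by
  simp [cmp, List.range_succ]

theorem cmp_ne (X : ℕ → ℕ) (x y m : ℕ) : ∀ r, cmp X x y m r ≠ 0 ↔
    (∃ z < m, rel X x z ∧ ¬ rel X y z ∧ ∀ w < z, (rel X x w ↔ rel X y w)) ∨
      ((∀ w < m, (rel X x w ↔ rel X y w)) ∧ r ≠ 0) := by
  induction m with
  | zero => intro r; simp [cmp]
  | succ m ih =>
    intro r
    rw [cmp_succ, ih]
    have e1 : (∃ z < m + 1, rel X x z ∧ ¬ rel X y z ∧ ∀ w < z, (rel X x w ↔ rel X y w)) ↔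
        ((∃ z < m, rel X x z ∧ ¬ rel X y z ∧ ∀ w < z, (rel X x w ↔ rel X y w)) ∨
          (rel X x m ∧ ¬ rel X y m ∧ ∀ w < m, (rel X x w ↔ rel X y w))) := by
      constructor
      · rintro ⟨z, hz, h⟩
        rcases Nat.lt_succ_iff_lt_or_eq.1 hz with h' | rfl
        · exact Or.inl ⟨z, h', h⟩
        · exact Or.inr h
      · rintro (⟨z, hz, h⟩ | h)
        · exact ⟨z, by omega, h⟩
        · exact ⟨m, by omega, h⟩
    have e2 : (∀ w < m + 1, (rel X x w ↔ rel X y w)) ↔
        ((∀ w < m, (rel X x w ↔ rel X y w)) ∧ (rel X x m ↔ rel X y m)) := by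
      constructor
      · intro h; exact ⟨fun w hw => h w (by omega), h m (by omega)⟩
      · rintro ⟨h1, h2⟩ w hw
        rcases Nat.lt_succ_iff_lt_or_eq.1 hw with h' | rfl
        · exact h1 w h'
        · exact h2
    rw [e1, e2]
    have e3 : stp (X (Nat.pair x m)) (X (Nat.pair y m)) r ≠ 0 ↔
        ((rel X x m ∧ ¬ rel X y m) ∨ ((rel X x m ↔ rel X y m) ∧ r ≠ 0)) := by
      unfold stp rel
      by_cases h1 : X (Nat.pair x m) = 0 <;> by_cases h2 : X (Nat.pair y m) = 0 <;> simp [h1, h2]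
    rw [e3]
    constructor
    · rintro (h | ⟨h, ⟨h1, h2⟩ | ⟨h1, h2⟩⟩)
      · exact Or.inl (Or.inl h)
      · exact Or.inl (Or.inr ⟨h1, h2, h⟩)
      · exact Or.inr ⟨⟨h, h1⟩, h2⟩
    · rintro ((h | ⟨h1, h2, h⟩) | ⟨⟨h, h1⟩, h2⟩)
      · exact Or.inl h
      · exact Or.inr ⟨h, Or.inl ⟨h1, h2⟩⟩
      · exact Or.inr ⟨h, Or.inr ⟨h1, h2⟩⟩

/-- the linear order `◁` -/
def Phi (X : ℕ → ℕ) (n : ℕ) : ℕ :=
  if X (Nat.pair n.unpair.1 n.unpair.1) = 0 then 0
  else if X (Nat.pair n.unpair.2 n.unpair.2) = 0 then 0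
  else if n.unpair.1 = n.unpair.2 then 1
  else cmp X n.unpair.1 n.unpair.2 (n + 1) 0

theorem exists_diff {X : ℕ → ℕ} (hX : IsPO X) {x y : ℕ} (hx : x ∈ field X) (hy : y ∈ field X)
    (h : x ≠ y) : ∃ z, z ≤ max x y ∧ ¬ (rel X x z ↔ rel X y z) := by
  by_contra hc
  push Not at hc
  have h1 := (hc x (le_max_left _ _)).1 hx
  have h2 := (hc y (le_max_right _ _)).2 hy
  exact h (hX.2.1 x y h2 h1)

theorem rel_Phi {X : ℕ → ℕ} (hX : IsPO X) (x y : ℕ) :
    rel (Phi X) x y ↔ x ∈ field X ∧ y ∈ field X ∧ (x = y ∨ Lex X x y) := by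
  unfold rel Phi
  rw [Nat.unpair_pair]
  simp only
  by_cases hx : x ∈ field X
  swap
  · have : X (Nat.pair x x) = 0 := by
      by_contra h; exact hx h
    simp [this, hx]
  by_cases hy : y ∈ field X
  swap
  · have : X (Nat.pair y y) = 0 := by
      by_contra h; exact hy h
    simp [this, hy]
  have hx' : X (Nat.pair x x) ≠ 0 := hx
  have hy' : X (Nat.pair y y) ≠ 0 := hy
  rw [if_neg hx', if_neg hy']
  by_cases hxy : x = y
  · simp [hxy, hy]
  rw [if_neg hxy, cmp_ne]
  simp only [hx, hy, hxy, true_and, false_or, ne_eq, not_true_eq_false, and_false, or_false]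
  constructor
  · rintro ⟨z, -, h⟩
    exact ⟨z, h⟩
  · rintro ⟨z, h⟩
    refine ⟨z, ?_, h⟩
    obtain ⟨w, hw, hw'⟩ := exists_diff hX hx hy hxy
    have h1 : z ≤ w := by
      by_contra hc
      exact hw' (h.2.2 w (by omega))
    have h2 : max x y ≤ Nat.pair x y := max_le (Nat.left_le_pair x y) (Nat.right_le_pair x y)
    omega

theorem field_Phi {X : ℕ → ℕ} (hX : IsPO X) : field (Phi X) = field X := by
  ext x
  change rel (Phi X) x x ↔ _
  rw [rel_Phi hX]
  tauto

theorem Lex_total {X : ℕ → ℕ} (hX : IsPO X) {x y : ℕ} (hx : x ∈ field X) (hy : y ∈ field X)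
    (h : x ≠ y) : Lex X x y ∨ Lex X y x := by
  classical
  obtain ⟨z, -, hz⟩ := exists_diff hX hx hy h
  have hex : ∃ z, ¬ (rel X x z ↔ rel X y z) := ⟨z, hz⟩
  have h1 := Nat.find_spec hex
  have h2 : ∀ w < Nat.find hex, (rel X x w ↔ rel X y w) := fun w hw => by
    have := Nat.find_min hex hw
    simpa using this
  by_cases hc : rel X x (Nat.find hex)
  · exact Or.inl ⟨_, hc, by tauto, h2⟩
  · exact Or.inr ⟨_, by tauto, hc, fun w hw => (h2 w hw).symm⟩

theorem Lex_asymm {X : ℕ → ℕ} {x y : ℕ} (h1 : Lex X x y) (h2 : Lex X y x) : False := by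
  obtain ⟨z, a, b, c⟩ := h1
  obtain ⟨w, d, e, f⟩ := h2
  rcases lt_trichotomy z w with h | rfl | h
  · exact b ((f z h).2 a)
  · exact b d
  · exact e ((c w h).2 d)

theorem Lex_trans {X : ℕ → ℕ} {x y v : ℕ} (h1 : Lex X x y) (h2 : Lex X y v) : Lex X x v := by
  obtain ⟨z, a, b, c⟩ := h1
  obtain ⟨w, d, e, f⟩ := h2
  rcases lt_trichotomy z w with h | rfl | h
  · exact ⟨z, a, fun h' => b ((f z h).2 h'), fun u hu => (c u hu).trans (f u (hu.trans h))⟩
  · exact absurd d b
  · exact ⟨w, (c w h).2 d, e, fun u hu => (c u (hu.trans h)).trans (f u hu)⟩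

theorem isLO_Phi {X : ℕ → ℕ} (hX : IsPO X) : IsLO (Phi X) := by
  refine ⟨⟨fun x y h => ?_, fun x y h1 h2 => ?_, fun x y z h1 h2 => ?_⟩, fun x hx y hy => ?_⟩
  · rw [field_Phi hX]
    rw [rel_Phi hX] at h
    exact ⟨h.1, h.2.1⟩
  · rw [rel_Phi hX] at h1 h2
    by_contra hc
    exact Lex_asymm (h1.2.2.resolve_left hc) (h2.2.2.resolve_left (Ne.symm hc))
  · rw [rel_Phi hX] at h1 h2 ⊢
    refine ⟨h1.1, h2.2.1, ?_⟩
    rcases h1.2.2 with rfl | h
    · exact h2.2.2
    rcases h2.2.2 with rfl | h'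
    · exact Or.inr h
    exact Or.inr (Lex_trans h h')
  · rw [field_Phi hX] at hx hy
    rw [rel_Phi hX, rel_Phi hX]
    by_cases h : x = y
    · exact Or.inl ⟨hx, hy, Or.inl h⟩
    rcases Lex_total hX hx hy h with h | h
    · exact Or.inl ⟨hx, hy, Or.inr h⟩
    · exact Or.inr ⟨hy, hx, Or.inr h⟩

/-- almost all elements are above `x` -/
def Up (X : ℕ → ℕ) (x : ℕ) : Prop := {y ∈ field X | ¬ Lex X x y}.Finite

/-- almost all elements are below `x` -/
def Down (X : ℕ → ℕ) (x : ℕ) : Prop := {y ∈ field X | ¬ Lex X y x}.Finite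

theorem tame {X : ℕ → ℕ} (hX : X ∈ PP.dom) (z : ℕ) :
    {y ∈ field X | ¬ (rel X y z ↔ Large X (field X) z)}.Finite := by
  obtain ⟨h1, h2, h3⟩ := hX
  by_cases hz : z ∈ field X
  swap
  · have a : ∀ y, ¬ rel X y z := fun y hy => hz (h1.1 y z hy).2
    have b : ¬ Large X (field X) z := by
      intro hb
      apply h2
      have : {y ∈ field X | ¬ rel X y z} = field X := by
        ext y; simp [a y]
      rw [Large, this] at hb
      exact hb
    simp [a, b]
  by_cases hL : Large X (field X) z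
  · refine Set.Finite.subset hL ?_
    rintro y ⟨hy, hy'⟩
    exact ⟨hy, fun h => hy' ⟨fun _ => hL, fun _ => h⟩⟩
  rcases h3 z hz with h | h | h
  · refine Set.Finite.subset (h.union (Set.finite_singleton z)) ?_
    rintro y ⟨hy, hy'⟩
    have hy'' : rel X y z := by
      by_contra hc; exact hy' ⟨fun h => absurd h hc, fun h => absurd h hL⟩
    by_cases hc : rel X z y
    · exact Or.inr (h1.2.1 y z hy'' hc)
    · exact Or.inl ⟨hy, hc⟩
  · exact absurd h hL
  · refine Set.Finite.subset h ?_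
    rintro y ⟨hy, hy'⟩
    have hy'' : rel X y z := by
      by_contra hc; exact hy' ⟨fun h => absurd h hc, fun h => absurd h hL⟩
    exact ⟨hy, Or.inr hy''⟩

theorem up_or_down {X : ℕ → ℕ} (hX : X ∈ PP.dom) {x : ℕ} (hx : x ∈ field X) :
    Up X x ∨ Down X x := by
  classical
  by_cases hex : ∃ z, ¬ (rel X x z ↔ Large X (field X) z)
  · have h1 := Nat.find_spec hex
    have h2 : ∀ w < Nat.find hex, (rel X x w ↔ Large X (field X) w) := fun w hw => by
      have := Nat.find_min hex hw
      simpa using this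
    set z := Nat.find hex
    have hfin : (⋃ w ∈ Finset.range (z + 1),
        {y ∈ field X | ¬ (rel X y w ↔ Large X (field X) w)}).Finite :=
      Set.Finite.biUnion (Finset.finite_toSet _) fun w _ => tame hX w
    have key : ∀ y ∈ field X, y ∉ (⋃ w ∈ Finset.range (z + 1),
        {y ∈ field X | ¬ (rel X y w ↔ Large X (field X) w)}) →
        ∀ w ≤ z, (rel X y w ↔ Large X (field X) w) := by
      intro y hy hn w hw
      by_contra hc
      apply hn
      simp only [Set.mem_iUnion]
      exact ⟨w, Finset.mem_range.2 (by omega), hy, hc⟩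
    by_cases hr : rel X x z
    · left
      refine hfin.subset ?_
      rintro y ⟨hy, hy'⟩
      by_contra hn
      have k := key y hy hn
      exact hy' ⟨z, hr, fun h => h1 ⟨fun _ => (k z le_rfl).1 h, fun _ => hr⟩,
        fun w hw => (h2 w hw).trans (k w hw.le).symm⟩
    · right
      have hl : Large X (field X) z := by
        by_contra hc; exact h1 ⟨fun h => absurd h hr, fun h => absurd h hc⟩
      refine hfin.subset ?_
      rintro y ⟨hy, hy'⟩
      by_contra hn
      have k := key y hy hn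
      exact hy' ⟨z, (k z le_rfl).2 hl, hr, fun w hw => (k w hw.le).trans (h2 w hw).symm⟩
  · push Not at hex
    right
    have hl : Large X (field X) x := (hex x).1 hx
    refine (hl.union (Set.finite_singleton x)).subset ?_
    rintro y ⟨hy, hy'⟩
    by_contra hn
    simp only [Set.mem_union, Set.mem_ofPred_eq, not_or, not_and, not_not,
      Set.mem_singleton_iff] at hn
    have hyx := hn.1 hy
    rcases Lex_total hX.1 hx hy (Ne.symm hn.2) with h | h
    · obtain ⟨z, a, b, -⟩ := h
      exact b (hX.1.2.2 y x z hyx a)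
    · exact hy' h

theorem not_large_of_up {X : ℕ → ℕ} (hX : X ∈ PP.dom) {x : ℕ} (h : Up X x) :
    ¬ Large X (field X) x := by
  intro hl
  obtain ⟨y, hy, hn⟩ := (hX.2.1.sdiff (h.union hl)).nonempty
  simp only [Set.mem_union, Set.mem_ofPred_eq, not_or, not_and, not_not] at hn
  obtain ⟨z, a, b, -⟩ := hn.1 hy
  exact b (hX.1.2.2 y x z (hn.2 hy) a)

theorem not_small_of_down {X : ℕ → ℕ} (hX : X ∈ PP.dom) {x : ℕ} (h : Down X x) :
    ¬ Small X (field X) x := by
  intro hl
  obtain ⟨y, hy, hn⟩ := (hX.2.1.sdiff (h.union hl)).nonempty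
  simp only [Set.mem_union, Set.mem_ofPred_eq, not_or, not_and, not_not] at hn
  obtain ⟨z, a, b, -⟩ := hn.1 hy
  exact b (hX.1.2.2 x y z (hn.2 hy) a)

theorem Phi_mem {X : ℕ → ℕ} (hX : X ∈ PP.dom) : Phi X ∈ StableLO := by
  refine ⟨isLO_Phi hX.1, by rw [field_Phi hX.1]; exact hX.2.1, fun x hx => ?_⟩
  rw [field_Phi hX.1] at hx
  rcases up_or_down hX hx with h | h
  · left
    refine (h.union (Set.finite_singleton x)).subset ?_
    intro y hy
    rw [Set.mem_ofPred_eq, rel_Phi hX.1] at hy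
    rcases hy.2.2 with rfl | h'
    · exact Or.inr rfl
    · exact Or.inl ⟨hy.1, fun h'' => Lex_asymm h' h''⟩
  · right
    refine (h.union (Set.finite_singleton x)).subset ?_
    intro y hy
    rw [Set.mem_ofPred_eq, rel_Phi hX.1] at hy
    rcases hy.2.2 with rfl | h'
    · exact Or.inr rfl
    · exact Or.inl ⟨hy.2.1, fun h'' => Lex_asymm h' h''⟩

/-- every solution of the linear order `◁` is a solution of the partial order -/
theorem sol_Phi {X : ℕ → ℕ} (hX : X ∈ PP.dom) {S : ℕ → ℕ} (hS : S ∈ SADC.sol (Phi X)) :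
    S ∈ PP.sol X := by
  obtain ⟨h1, h2, h3⟩ := hS
  rw [field_Phi hX.1] at h1
  have sm : ∀ x, Small X (field X) x → Small X (supp S) x := fun x h =>
    h.subset fun y hy => ⟨h1 hy.1, hy.2⟩
  have la : ∀ x, Large X (field X) x → Large X (supp S) x := fun x h =>
    h.subset fun y hy => ⟨h1 hy.1, hy.2⟩
  have is : ∀ x, Isolated X (field X) x → Isolated X (supp S) x := fun x h =>
    h.subset fun y hy => ⟨h1 hy.1, hy.2⟩
  refine ⟨h1, h2, ?_⟩
  rcases h3 with h3 | h3
  · left
    intro x hx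
    have hup : Up X x := by
      refine (up_or_down hX (h1 hx)).resolve_right fun hd => ?_
      apply h2
      refine ((h3 x hx).union hd).subset fun y hy => ?_
      by_cases hc : Lex X y x
      · exact Or.inl ⟨hy, (rel_Phi hX.1 y x).2 ⟨h1 hy, h1 hx, Or.inr hc⟩⟩
      · exact Or.inr ⟨h1 hy, hc⟩
    rcases hX.2.2 x (h1 hx) with h | h | h
    · exact Or.inl (sm x h)
    · exact absurd h (not_large_of_up hX hup)
    · exact Or.inr (is x h)
  · right
    intro x hx
    have hdo : Down X x := by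
      refine (up_or_down hX (h1 hx)).resolve_left fun hd => ?_
      apply h2
      refine ((h3 x hx).union hd).subset fun y hy => ?_
      by_cases hc : Lex X x y
      · exact Or.inl ⟨hy, (rel_Phi hX.1 x y).2 ⟨h1 hx, h1 hy, Or.inr hc⟩⟩
      · exact Or.inr ⟨h1 hy, hc⟩
    rcases hX.2.2 x (h1 hx) with h | h | h
    · exact absurd h (not_small_of_down hX hdo)
    · exact Or.inl (la x h)
    · exact Or.inr (is x h)

/-- `SADC` is the restriction of `P` to linear orders -/
theorem dom_SADC {X : ℕ → ℕ} (hX : X ∈ SADC.dom) : X ∈ PP.dom := by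
  obtain ⟨h1, h2, h3⟩ := hX
  refine ⟨h1.1, h2, fun x hx => ?_⟩
  rcases h3 x hx with h | h
  · left
    refine h.subset ?_
    rintro y ⟨hy, hy'⟩
    exact (h1.2 x hx y hy).resolve_left hy'
  · right; left
    refine h.subset ?_
    rintro y ⟨hy, hy'⟩
    exact (h1.2 x hx y hy).resolve_right hy'

theorem sol_SADC {X : ℕ → ℕ} (hX : X ∈ SADC.dom) (S : ℕ → ℕ) :
    S ∈ SADC.sol X ↔ S ∈ PP.sol X := by
  obtain ⟨h1, h2, h3⟩ := hX
  constructor
  · rintro ⟨a, b, c⟩
    refine ⟨a, b, ?_⟩
    rcases c with c | c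
    · left
      intro x hx
      left
      refine (c x hx).subset ?_
      rintro y ⟨hy, hy'⟩
      exact ⟨hy, (h1.2 x (a hx) y (a hy)).resolve_left hy'⟩
    · right
      intro x hx
      left
      refine (c x hx).subset ?_
      rintro y ⟨hy, hy'⟩
      exact ⟨hy, (h1.2 x (a hx) y (a hy)).resolve_right hy'⟩
  · rintro ⟨a, b, c⟩
    refine ⟨a, b, ?_⟩
    have niso : ∀ x ∈ supp S, ¬ Isolated X (supp S) x := by
      intro x hx h
      apply b
      refine h.subset fun y hy => ⟨hy, h1.2 x (a hx) y (a hy)⟩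
    rcases c with c | c
    · left
      intro x hx
      refine (((c x hx).resolve_right (niso x hx)).union (Set.finite_singleton x)).subset ?_
      rintro y ⟨hy, hy'⟩
      by_cases hc : rel X x y
      · exact Or.inr (h1.1.2.1 y x hy' hc)
      · exact Or.inl ⟨hy, hc⟩
    · right
      intro x hx
      refine (((c x hx).resolve_right (niso x hx)).union (Set.finite_singleton x)).subset ?_
      rintro y ⟨hy, hy'⟩
      by_cases hc : rel X y x
      · exact Or.inr (h1.1.2.1 y x hc hy')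
      · exact Or.inl ⟨hy, hc⟩

/-! ### The functionals -/

theorem stp_primrec : Primrec fun p : (ℕ × ℕ) × ℕ => stp p.1.1 p.1.2 p.2 := by
  unfold stp
  have h1 : PrimrecPred fun p : (ℕ × ℕ) × ℕ => p.1.1 = 0 :=
    PrimrecRel.comp Primrec.eq (Primrec.fst.comp Primrec.fst) (Primrec.const 0)
  have h2 : PrimrecPred fun p : (ℕ × ℕ) × ℕ => p.1.2 = 0 :=
    PrimrecRel.comp Primrec.eq (Primrec.snd.comp Primrec.fst) (Primrec.const 0)
  exact Primrec.ite h1 (Primrec.ite h2 Primrec.snd (Primrec.const 0))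
    (Primrec.ite h2 (Primrec.const 1) Primrec.snd)

/-- reading the oracle list -/
def at' (l : List ℕ) (x y : ℕ) : ℕ := l.getD (Nat.pair x y) 0

/-- the forward function on lists -/
def gPhi (l : List ℕ) (n : ℕ) : ℕ :=
  if at' l n.unpair.1 n.unpair.1 = 0 then 0
  else if at' l n.unpair.2 n.unpair.2 = 0 then 0
  else if n.unpair.1 = n.unpair.2 then 1
  else (List.range (n + 1)).foldr
    (fun z r => stp (at' l n.unpair.1 z) (at' l n.unpair.2 z) r) 0

theorem gPhi_primrec : Primrec₂ gPhi := by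
  have a1 : Primrec fun p : List ℕ × ℕ => p.2.unpair.1 :=
    Primrec.fst.comp (Primrec.unpair.comp Primrec.snd)
  have a2 : Primrec fun p : List ℕ × ℕ => p.2.unpair.2 :=
    Primrec.snd.comp (Primrec.unpair.comp Primrec.snd)
  have hget : ∀ {α : Type} [Primcodable α] {f : α → List ℕ} {g h : α → ℕ}, Primrec f → Primrec g →
      Primrec h → Primrec fun a => at' (f a) (g a) (h a) := by
    intro α _ f g h hf hg hh
    exact (Primrec.list_getD 0).comp hf (Primrec₂.natPair.comp hg hh)
  have c1 : PrimrecPred fun p : List ℕ × ℕ => at' p.1 p.2.unpair.1 p.2.unpair.1 = 0 :=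
    PrimrecRel.comp Primrec.eq (hget Primrec.fst a1 a1) (Primrec.const 0)
  have c2 : PrimrecPred fun p : List ℕ × ℕ => at' p.1 p.2.unpair.2 p.2.unpair.2 = 0 :=
    PrimrecRel.comp Primrec.eq (hget Primrec.fst a2 a2) (Primrec.const 0)
  have c3 : PrimrecPred fun p : List ℕ × ℕ => p.2.unpair.1 = p.2.unpair.2 :=
    PrimrecRel.comp Primrec.eq a1 a2
  have hf : Primrec fun p : List ℕ × ℕ => List.range (p.2 + 1) :=
    Primrec.list_range.comp (Primrec.succ.comp Primrec.snd)
  have hstep : Primrec₂ fun (p : List ℕ × ℕ) (q : ℕ × ℕ) =>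
      stp (at' p.1 p.2.unpair.1 q.1) (at' p.1 p.2.unpair.2 q.1) q.2 := by
    have b1 : Primrec fun p : (List ℕ × ℕ) × (ℕ × ℕ) => at' p.1.1 p.1.2.unpair.1 p.2.1 :=
      hget (Primrec.fst.comp Primrec.fst) (a1.comp Primrec.fst) (Primrec.fst.comp Primrec.snd)
    have b2 : Primrec fun p : (List ℕ × ℕ) × (ℕ × ℕ) => at' p.1.1 p.1.2.unpair.2 p.2.1 :=
      hget (Primrec.fst.comp Primrec.fst) (a2.comp Primrec.fst) (Primrec.fst.comp Primrec.snd)
    exact stp_primrec.comp ((b1.pair b2).pair (Primrec.snd.comp Primrec.snd))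
  have hfold := Primrec.list_foldr hf (Primrec.const 0) hstep
  exact Primrec.ite c1 (Primrec.const 0) (Primrec.ite c2 (Primrec.const 0)
    (Primrec.ite c3 (Primrec.const 1) hfold))

theorem getD_map (X : ℕ → ℕ) {k m : ℕ} (h : k < m) : ((List.range m).map X).getD k 0 = X k := by
  simp [List.getD, h]

theorem PhiFun : PrimrecFunctional Phi := by
  refine ⟨fun n => (n + 1) * (n + 1), gPhi,
    Primrec.nat_mul.comp Primrec.succ Primrec.succ, gPhi_primrec, fun X n => ?_⟩
  have key : ∀ x y, x ≤ n → y ≤ n →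
      at' ((List.range ((n + 1) * (n + 1))).map X) x y = X (Nat.pair x y) := by
    intro x y hx hy
    refine getD_map X ?_
    have h1 := Nat.pair_lt_max_add_one_sq x y
    have h2 : max x y + 1 ≤ n + 1 := by
      have := max_le hx hy
      omega
    nlinarith [Nat.mul_le_mul h2 h2]
  have u1 := Nat.unpair_left_le n
  have u2 := Nat.unpair_right_le n
  unfold Phi gPhi cmp
  rw [key _ _ u1 u1, key _ _ u2 u2]
  have hfold : ∀ k ≤ n + 1, ∀ r : ℕ,
      (List.range k).foldr (fun z r => stp (X (Nat.pair n.unpair.1 z))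
        (X (Nat.pair n.unpair.2 z)) r) r =
      (List.range k).foldr (fun z r => stp
        (at' ((List.range ((n + 1) * (n + 1))).map X) n.unpair.1 z)
        (at' ((List.range ((n + 1) * (n + 1))).map X) n.unpair.2 z) r) r := by
    intro k
    induction k with
    | zero => intro _ r; simp
    | succ k ih =>
      intro hk r
      rw [List.range_succ, List.foldr_append, List.foldr_append]
      simp only [List.foldr_cons, List.foldr_nil]
      rw [key _ _ u1 (by omega), key _ _ u2 (by omega)]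
      exact ih (by omega) _
  rw [hfold (n + 1) le_rfl 0]

theorem idFun : PrimrecFunctional (fun S => S) :=
  ⟨fun n => n + 1, fun l n => l.getD n 0, Primrec.succ, Primrec.list_getD 0,
    fun X n => (getD_map X (Nat.lt_succ_self n)).symm⟩

end Pool.Agent.KS6_32.LX.E
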