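import Pool.Agent.KS6_32.LX.E

/-!
`P` reduces to `SADS`, but `SADS` does not reduce to `P`, not even continuously.
-/

namespace Pool.Agent.KS6_32.LX.F

open Set Pool.Agent.KS6_32.LX.E

/-! ### From sequences to chains -/

/-- the records of the sequence `a` -/
def Psi (a : ℕ → ℕ) (x : ℕ) : ℕ :=
  open Classical in if ∃ n < x + 1, a n = x ∧ ∀ i < n, a i < x then 1 else 0

theorem mem_supp_Psi (a : ℕ → ℕ) (x : ℕ) :
    x ∈ supp (Psi a) ↔ ∃ n < x + 1, a n = x ∧ ∀ i < n, a i < x := by
  classical
  change Psi a x ≠ 0 ↔ _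
  unfold Psi
  by_cases h : ∃ n < x + 1, a n = x ∧ ∀ i < n, a i < x
  · rw [if_pos h]; exact ⟨fun _ => h, fun _ => one_ne_zero⟩
  · rw [if_neg h]; exact ⟨fun h' => absurd rfl h', fun h' => absurd h' h⟩

theorem forall_lt' {β : Type} [Primcodable β] {R : ℕ → β → Prop} (hf : PrimrecRel R) :
    PrimrecRel fun (n : ℕ) (y : β) => ∀ x < n, R x y :=
  (hf.forall_mem_list.comp (Primrec.list_range.comp Primrec.fst) Primrec.snd).of_eq (by simp)

theorem exists_lt' {β : Type} [Primcodable β] {R : ℕ → β → Prop} (hf : PrimrecRel R) :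
    PrimrecRel fun (n : ℕ) (y : β) => ∃ x < n, R x y :=
  (hf.exists_mem_list.comp (Primrec.list_range.comp Primrec.fst) Primrec.snd).of_eq (by simp)

/-- the records, on lists -/
def gPsi (l : List ℕ) (x : ℕ) : ℕ :=
  if ∃ n < x + 1, l.getD n 0 = x ∧ ∀ i < n, l.getD i 0 < x then 1 else 0

theorem gPsi_primrec : Primrec₂ gPsi := by
  have hget : ∀ {α : Type} [Primcodable α] {f : α → List ℕ} {g : α → ℕ}, Primrec f → Primrec g →
      Primrec fun a => (f a).getD (g a) 0 := by
    intro α _ f g hf hg
    exact (Primrec.list_getD 0).comp hf hg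
  have r1 : PrimrecRel fun (i : ℕ) (p : List ℕ × ℕ) => p.1.getD i 0 < p.2 :=
    PrimrecRel.comp Primrec.nat_lt (hget (Primrec.fst.comp Primrec.snd) Primrec.fst)
      (Primrec.snd.comp Primrec.snd)
  have r2 : PrimrecRel fun (n : ℕ) (p : List ℕ × ℕ) => ∀ i < n, p.1.getD i 0 < p.2 :=
    forall_lt' r1
  have r3 : PrimrecRel fun (n : ℕ) (p : List ℕ × ℕ) => p.1.getD n 0 = p.2 :=
    PrimrecRel.comp Primrec.eq (hget (Primrec.fst.comp Primrec.snd) Primrec.fst)
      (Primrec.snd.comp Primrec.snd)
  have r4 : PrimrecRel fun (n : ℕ) (p : List ℕ × ℕ) =>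
      p.1.getD n 0 = p.2 ∧ ∀ i < n, p.1.getD i 0 < p.2 := r3.and r2
  have r5 : PrimrecRel fun (m : ℕ) (p : List ℕ × ℕ) => ∃ n < m,
      p.1.getD n 0 = p.2 ∧ ∀ i < n, p.1.getD i 0 < p.2 := exists_lt' r4
  have r6 : PrimrecPred fun p : List ℕ × ℕ => ∃ n < p.2 + 1,
      p.1.getD n 0 = p.2 ∧ ∀ i < n, p.1.getD i 0 < p.2 :=
    r5.comp (Primrec.succ.comp Primrec.snd) Primrec.id
  exact Primrec.ite r6 (Primrec.const 1) (Primrec.const 0)

theorem PsiFun : PrimrecFunctional Psi := by
  refine ⟨fun x => x + 1, gPsi, Primrec.succ, gPsi_primrec, fun a x => ?_⟩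
  unfold Psi gPsi
  have h : (∃ n < x + 1, a n = x ∧ ∀ i < n, a i < x) ↔
      ∃ n < x + 1, ((List.range (x + 1)).map a).getD n 0 = x ∧
        ∀ i < n, ((List.range (x + 1)).map a).getD i 0 < x := by
    constructor
    · rintro ⟨n, hn, h1, h2⟩
      refine ⟨n, hn, by rw [getD_map a hn]; exact h1, fun i hi => ?_⟩
      rw [getD_map a (hi.trans hn)]
      exact h2 i hi
    · rintro ⟨n, hn, h1, h2⟩
      rw [getD_map a hn] at h1
      refine ⟨n, hn, h1, fun i hi => ?_⟩
      have := h2 i hi
      rwa [getD_map a (hi.trans hn)] at this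
  by_cases hc : ∃ n < x + 1, a n = x ∧ ∀ i < n, a i < x
  · rw [if_pos hc, if_pos (h.1 hc)]
  · rw [if_neg hc, if_neg (fun h' => hc (h.2 h'))]

theorem records {a : ℕ → ℕ} (ha : Function.Injective a) : (supp (Psi a)).Infinite := by
  classical
  rw [Set.infinite_iff_exists_gt]
  intro N
  have hex : ∃ n, N < a n := by
    by_contra hc
    push Not at hc
    have : (Set.range a).Finite := (Set.finite_Iic N).subset (by rintro _ ⟨n, rfl⟩; exact hc n)
    exact Set.infinite_range_of_injective ha this
  have h1 := Nat.find_spec hex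
  have h2 : ∀ i < Nat.find hex, a i ≤ N := fun i hi => by
    have := Nat.find_min hex hi
    omega
  refine ⟨a (Nat.find hex), ?_, h1⟩
  rw [mem_supp_Psi]
  have h3 : ∀ i < Nat.find hex, a i < a (Nat.find hex) := fun i hi => lt_of_le_of_lt (h2 i hi) h1
  refine ⟨Nat.find hex, ?_, rfl, h3⟩
  have : (Finset.range (Nat.find hex)).card ≤ (Finset.range (a (Nat.find hex))).card := by
    refine Finset.card_le_card_of_injOn a ?_ (ha.injOn)
    intro i hi
    have := h3 i (Finset.mem_range.1 (by simpa using hi))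
    simpa using this
  rw [Finset.card_range, Finset.card_range] at this
  exact Nat.lt_succ_of_le this

theorem sol_Psi {X : ℕ → ℕ} (hX : X ∈ StableLO) {a : ℕ → ℕ} (ha : a ∈ SADS.sol X) :
    Psi a ∈ SADC.sol X := by
  obtain ⟨⟨⟨-, hanti, htr⟩, -⟩, -, -⟩ := hX
  obtain ⟨h1, h2⟩ := ha
  have hsub : ∀ x ∈ supp (Psi a), ∃ n, a n = x := by
    intro x hx
    rw [mem_supp_Psi] at hx
    obtain ⟨n, -, h, -⟩ := hx
    exact ⟨n, h⟩
  rcases h2 with h2 | h2
  · have hlt : ∀ i j, i < j → a i ≠ a j ∧ rel X (a i) (a j) := by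
      intro i j hij
      induction hij with
      | refl => exact h2 i
      | @step j hij ih =>
        have h := h2 j
        refine ⟨fun he => ?_, htr _ _ _ ih.2 h.2⟩
        apply h.1
        refine hanti _ _ h.2 ?_
        rw [Nat.succ_eq_add_one] at he
        rw [← he]
        exact ih.2
    have hinj : Function.Injective a := by
      intro i j he
      rcases lt_trichotomy i j with h | h | h
      · exact absurd he (hlt i j h).1
      · exact h
      · exact absurd he.symm (hlt j i h).1
    refine ⟨fun x hx => ?_, records hinj, Or.inl fun x hx => ?_⟩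
    · obtain ⟨n, rfl⟩ := hsub x hx
      exact h1 n
    · obtain ⟨n, rfl⟩ := hsub x hx
      refine ((Set.finite_Iic n).image a).subset ?_
      rintro y ⟨hy, hy'⟩
      obtain ⟨m, rfl⟩ := hsub y hy
      refine ⟨m, ?_, rfl⟩
      by_contra hc
      have := hlt n m (by simpa using hc)
      exact this.1 (hanti _ _ this.2 hy')
  · have hlt : ∀ i j, i < j → a i ≠ a j ∧ rel X (a j) (a i) := by
      intro i j hij
      induction hij with
      | refl => exact h2 i
      | @step j hij ih =>
        have h := h2 j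
        refine ⟨fun he => ?_, htr _ _ _ h.2 ih.2⟩
        apply h.1
        refine hanti _ _ ?_ h.2
        rw [Nat.succ_eq_add_one] at he
        rw [← he]
        exact ih.2
    have hinj : Function.Injective a := by
      intro i j he
      rcases lt_trichotomy i j with h | h | h
      · exact absurd he (hlt i j h).1
      · exact h
      · exact absurd he.symm (hlt j i h).1
    refine ⟨fun x hx => ?_, records hinj, Or.inr fun x hx => ?_⟩
    · obtain ⟨n, rfl⟩ := hsub x hx
      exact h1 n
    · obtain ⟨n, rfl⟩ := hsub x hx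
      refine ((Set.finite_Iic n).image a).subset ?_
      rintro y ⟨hy, hy'⟩
      obtain ⟨m, rfl⟩ := hsub y hy
      refine ⟨m, ?_, rfl⟩
      by_contra hc
      have := hlt n m (by simpa using hc)
      exact this.1 (hanti _ _ hy' this.2)

theorem P_le_SADC : StrongRed PP SADC :=
  ⟨Phi, fun S => S, PhiFun, idFun, fun _ hX => ⟨Phi_mem hX, fun _ hS => sol_Phi hX hS⟩⟩

theorem SADC_le_P : StrongRed SADC PP :=
  ⟨fun S => S, fun S => S, idFun, idFun, fun _ hX => ⟨dom_SADC hX, fun S hS => (sol_SADC hX S).2 hS⟩⟩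

theorem P_le_SADS : StrongRed PP SADS :=
  ⟨Phi, Psi, PhiFun, PsiFun, fun _ hX => ⟨Phi_mem hX, fun _ hS => sol_Phi hX (sol_Psi (Phi_mem hX) hS)⟩⟩

/-! ### Block orders -/

/-- the order whose blocks, given by `β`, are increasing and go down -/
def XB (β : ℕ → ℕ) (n : ℕ) : ℕ :=
  if β n.unpair.2 < β n.unpair.1 ∨ (β n.unpair.1 = β n.unpair.2 ∧ n.unpair.1 ≤ n.unpair.2)
    then 1 else 0

theorem rel_XB (β : ℕ → ℕ) (x y : ℕ) :
    rel (XB β) x y ↔ β y < β x ∨ (β x = β y ∧ x ≤ y) := by
  unfold rel XB
  rw [Nat.unpair_pair]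
  simp only
  split_ifs with h <;> simp [h]

theorem field_XB (β : ℕ → ℕ) : field (XB β) = Set.univ := by
  ext x
  change rel (XB β) x x ↔ _
  rw [rel_XB]; simp

theorem XB_mem {β : ℕ → ℕ} (hβ : Monotone β) : XB β ∈ StableLO := by
  refine ⟨⟨⟨fun x y _ => ?_, fun x y h1 h2 => ?_, fun x y z h1 h2 => ?_⟩, fun x _ y _ => ?_⟩, ?_,
    fun x _ => ?_⟩
  · rw [field_XB]; exact ⟨trivial, trivial⟩
  · rw [rel_XB] at h1 h2; omega
  · rw [rel_XB] at h1 h2 ⊢; omega
  · rw [rel_XB, rel_XB]; omega
  · rw [field_XB]; exact Set.infinite_univ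
  · by_cases hb : ∀ y, β y ≤ β x
    · left
      refine (Set.finite_Iic x).subset fun y hy => ?_
      rw [Set.mem_ofPred_eq, rel_XB] at hy
      have := hb y
      rw [Set.mem_Iic]
      omega
    · right
      push Not at hb
      obtain ⟨z, hz⟩ := hb
      refine (Set.finite_Iic z).subset fun y hy => ?_
      rw [Set.mem_ofPred_eq, rel_XB] at hy
      rw [Set.mem_Iic]
      by_contra hc
      have := hβ (by omega : z ≤ y)
      omega

/-- with finitely many blocks all solutions are ascending -/
theorem asc_of_bdd {β : ℕ → ℕ} {C : ℕ} (hC : ∀ y, β y ≤ C) {a : ℕ → ℕ}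
    (ha : a ∈ SADS.sol (XB β)) : a 0 ≠ a 1 ∧ rel (XB β) (a 0) (a 1) := by
  rcases ha.2 with h | h
  · exact h 0
  · exfalso
    have hstep : ∀ n, β (a n) < β (a (n + 1)) ∨ (β (a n) = β (a (n + 1)) ∧ a (n + 1) < a n) := by
      intro n
      have h1 := (h n).1
      have h2 := (h n).2
      rw [rel_XB] at h2
      omega
    have hmono : Monotone fun n => β (a n) := monotone_nat_of_le_succ fun n => by
      have := hstep n; omega
    -- eventually constant
    obtain ⟨N, hN⟩ : ∃ N, ∀ n, N ≤ n → β (a n) = β (a N) := by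
      by_contra hc
      push Not at hc
      have : ∀ k, ∃ n, k ≤ β (a n) := by
        intro k
        induction k with
        | zero => exact ⟨0, by omega⟩
        | succ k ih =>
          obtain ⟨n, hn⟩ := ih
          obtain ⟨m, hm, hm'⟩ := hc n
          have := hmono hm
          simp only at this
          exact ⟨m, by omega⟩
      obtain ⟨n, hn⟩ := this (C + 1)
      have := hC (a n)
      omega
    have hdec : ∀ k, a (N + k) + k ≤ a N := by
      intro k
      induction k with
      | zero => simp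
      | succ k ih =>
        have h1 := hN (N + k) (by omega)
        have h2 := hN (N + k + 1) (by omega)
        have h3 := hstep (N + k)
        have e : N + (k + 1) = N + k + 1 := by omega
        rw [e]
        omega
    have := hdec (a N + 1)
    omega

/-- with infinitely many blocks all solutions are descending -/
theorem desc_of_unbdd {β : ℕ → ℕ} (hβ : Monotone β) (hC : ∀ C, ∃ y, C < β y) {a : ℕ → ℕ}
    (ha : a ∈ SADS.sol (XB β)) : rel (XB β) (a 1) (a 0) := by
  rcases ha.2 with h | h
  · exfalso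
    have hstep : ∀ n, β (a (n + 1)) < β (a n) ∨ (β (a n) = β (a (n + 1)) ∧ a n < a (n + 1)) := by
      intro n
      have h1 := (h n).1
      have h2 := (h n).2
      rw [rel_XB] at h2
      omega
    have hle : ∀ n, β (a n) ≤ β (a 0) := by
      intro n
      induction n with
      | zero => exact le_rfl
      | succ n ih => have := hstep n; omega
    obtain ⟨y, hy⟩ := hC (β (a 0))
    have hb : ∀ n, a n < y := by
      intro n
      by_contra hc
      have := hβ (by omega : y ≤ a n)
      have := hle n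
      omega
    obtain ⟨N, hN⟩ : ∃ N, ∀ n, N ≤ n → β (a n) = β (a N) := by
      by_contra hc
      push Not at hc
      have hanti : Antitone fun n => β (a n) := antitone_nat_of_succ_le fun n => by
        have := hstep n; omega
      have : ∀ k, ∃ n, β (a n) + k ≤ β (a 0) := by
        intro k
        induction k with
        | zero => exact ⟨0, by omega⟩
        | succ k ih =>
          obtain ⟨n, hn⟩ := ih
          obtain ⟨m, hm, hm'⟩ := hc n
          have := hanti hm
          simp only at this
          exact ⟨m, by omega⟩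
      obtain ⟨n, hn⟩ := this (β (a 0) + 1)
      omega
    have hinc : ∀ k, a N + k ≤ a (N + k) := by
      intro k
      induction k with
      | zero => simp
      | succ k ih =>
        have h1 := hN (N + k) (by omega)
        have h2 := hN (N + k + 1) (by omega)
        have h3 := hstep (N + k)
        have e : N + (k + 1) = N + k + 1 := by omega
        rw [e]
        omega
    have h1 := hinc y
    have h2 := hb (N + y)
    omega
  · exact (h 0).2

end Pool.Agent.KS6_32.LX.F
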