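import Pool.Agent.KS6_32.LX.F

/-!
`SADS` is not continuously Weihrauch reducible to `P`.
-/

namespace Pool.Agent.KS6_32.LX.G

open Set Topology Pool.Agent.KS6_32.LX.E Pool.Agent.KS6_32.LX.F

/-! ### Moduli of continuity -/

theorem mem_nhds_cyl {X : ℕ → ℕ} {V : Set (ℕ → ℕ)} (h : V ∈ 𝓝 X) :
    ∃ N, ∀ X' : ℕ → ℕ, (∀ k < N, X' k = X k) → X' ∈ V := by
  rw [(PiNat.isTopologicalBasis_cylinders (fun _ : ℕ => ℕ)).mem_nhds_iff] at h
  obtain ⟨t, ⟨x, n, rfl⟩, hX, ht⟩ := h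
  refine ⟨n, fun X' h' => ht ?_⟩
  rw [PiNat.mem_cylinder_iff] at hX ⊢
  intro i hi
  rw [h' i hi, hX i hi]

theorem cyl_mem (Y : ℕ → ℕ) (m : ℕ) : {Z : ℕ → ℕ | ∀ k < m, Z k = Y k} ∈ 𝓝 Y :=
  (PiNat.isOpen_cylinder (fun _ : ℕ => ℕ) Y m).mem_nhds (PiNat.self_mem_cylinder Y m)

theorem modulus {Φ : (ℕ → ℕ) → (ℕ → ℕ)} {D : Set (ℕ → ℕ)} (hΦ : ContinuousOn Φ D) {X : ℕ → ℕ}
    (hX : X ∈ D) (m : ℕ) :
    ∃ N, ∀ X' ∈ D, (∀ k < N, X' k = X k) → ∀ k < m, Φ X' k = Φ X k := by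
  have h1 := (hΦ X hX) (cyl_mem (Φ X) m)
  rw [Filter.mem_map, mem_nhdsWithin_iff_exists_mem_nhds_inter] at h1
  obtain ⟨V, hV, hVs⟩ := h1
  obtain ⟨N, hN⟩ := mem_nhds_cyl hV
  exact ⟨N, fun X' hX' h => hVs ⟨hN X' h, hX'⟩⟩

theorem modulus₂ {Ψ : (ℕ → ℕ) × (ℕ → ℕ) → (ℕ → ℕ)} {D : Set ((ℕ → ℕ) × (ℕ → ℕ))}
    (hΨ : ContinuousOn Ψ D) {X S : ℕ → ℕ} (hX : (X, S) ∈ D) (m : ℕ) :
    ∃ N, ∀ X' S' : ℕ → ℕ, (X', S') ∈ D → (∀ k < N, X' k = X k) → (∀ k < N, S' k = S k) →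
      ∀ k < m, Ψ (X', S') k = Ψ (X, S) k := by
  have h1 := (hΨ (X, S) hX) (cyl_mem (Ψ (X, S)) m)
  rw [Filter.mem_map, mem_nhdsWithin_iff_exists_mem_nhds_inter] at h1
  obtain ⟨V, hV, hVs⟩ := h1
  rw [mem_nhds_prod_iff] at hV
  obtain ⟨V1, hV1, V2, hV2, hV12⟩ := hV
  obtain ⟨N1, hN1⟩ := mem_nhds_cyl hV1
  obtain ⟨N2, hN2⟩ := mem_nhds_cyl hV2
  refine ⟨max N1 N2, fun X' S' hD h1 h2 => ?_⟩
  have a1 : X' ∈ V1 := hN1 X' fun k hk => h1 k (lt_of_lt_of_le hk (le_max_left _ _))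
  have a2 : S' ∈ V2 := hN2 S' fun k hk => h2 k (lt_of_lt_of_le hk (le_max_right _ _))
  exact hVs ⟨hV12 (Set.mk_mem_prod a1 a2), hD⟩

/-! ### The two parts of a stable linear order -/

/-- the order or its reverse -/
def R (d : Bool) (M : ℕ → ℕ) (x y : ℕ) : Prop := if d = true then rel M x y else rel M y x

/-- the elements with finitely many predecessors, or successors -/
def W (d : Bool) (M : ℕ → ℕ) : Set ℕ := {x ∈ field M | {y | R d M y x}.Finite}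

/-- the indicator function -/
noncomputable def ind (A : Set ℕ) (x : ℕ) : ℕ := open Classical in if x ∈ A then 1 else 0

theorem supp_ind (A : Set ℕ) : supp (ind A) = A := by
  classical
  ext x
  change ind A x ≠ 0 ↔ _
  unfold ind
  by_cases h : x ∈ A <;> simp [h]

theorem W_or {M : ℕ → ℕ} (hM : M ∈ StableLO) (d : Bool) {x : ℕ} (hx : x ∈ field M) :
    x ∈ W d M ∨ x ∈ W (!d) M := by
  have h := hM.2.2 x hx
  cases d
  · rcases h with h | h
    · exact Or.inr ⟨hx, by simpa [R] using h⟩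
    · exact Or.inl ⟨hx, by simpa [R] using h⟩
  · rcases h with h | h
    · exact Or.inl ⟨hx, by simpa [R] using h⟩
    · exact Or.inr ⟨hx, by simpa [R] using h⟩

theorem R_trans {M : ℕ → ℕ} (hM : M ∈ StableLO) {d : Bool} {x y z : ℕ} (h1 : R d M x y)
    (h2 : R d M y z) : R d M x z := by
  unfold R at *
  split_ifs at * with h
  · exact hM.1.1.2.2 _ _ _ h1 h2
  · exact hM.1.1.2.2 _ _ _ h2 h1

theorem R_total {M : ℕ → ℕ} (hM : M ∈ StableLO) {d : Bool} {x y : ℕ} (hx : x ∈ field M)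
    (hy : y ∈ field M) : R d M x y ∨ R d M y x := by
  unfold R
  split_ifs with h
  · exact hM.1.2 x hx y hy
  · exact (hM.1.2 x hx y hy).symm

theorem exists_W {M : ℕ → ℕ} (hM : M ∈ StableLO) : ∃ d, (W d M).Infinite := by
  by_contra hc
  push Not at hc
  apply hM.2.1
  refine ((hc true).union (hc false)).subset fun x hx => ?_
  exact W_or hM true hx

theorem chain_sol {M : ℕ → ℕ} {d : Bool} {S : ℕ → ℕ} (h1 : supp S ⊆ W d M)
    (h2 : (supp S).Infinite) : S ∈ SADC.sol M := by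
  refine ⟨fun x hx => (h1 hx).1, h2, ?_⟩
  cases d
  · right
    intro x hx
    refine (h1 hx).2.subset fun y hy => ?_
    simpa [R] using hy.2
  · left
    intro x hx
    refine (h1 hx).2.subset fun y hy => ?_
    simpa [R] using hy.2

theorem R_congr {M M' : ℕ → ℕ} {x y : ℕ} (h1 : M' (Nat.pair x y) = M (Nat.pair x y))
    (h2 : M' (Nat.pair y x) = M (Nat.pair y x)) {d : Bool} (h : R d M x y) : R d M' x y := by
  unfold R rel at *
  split_ifs at * with hd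
  · rw [h1]; exact h
  · rw [h2]; exact h

section

variable {Φ : (ℕ → ℕ) → (ℕ → ℕ)} {Ψ : (ℕ → ℕ) × (ℕ → ℕ) → (ℕ → ℕ)}

/-- the properties of the finite sets chosen at one step -/
def Good (Φ : (ℕ → ℕ) → (ℕ → ℕ)) (F G : Finset ℕ) (t : ℕ) (β : ℕ → ℕ) : Prop :=
  (∀ x ∈ F, x ∈ field (Φ (XB β))) ∧ (∀ x ∈ G, x ∈ field (Φ (XB β))) ∧
    (∃ d, ∀ f ∈ F, ∀ g ∈ G, R d (Φ (XB β)) f g) ∧
    (∀ S ∈ SADC.sol (Φ (XB β)), ¬ ∀ x < t, S x = ind (F : Set ℕ) x) ∧
    (∀ S ∈ SADC.sol (Φ (XB β)), ¬ ∀ x < t, S x = ind (G : Set ℕ) x)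

theorem XB_congr {β β' : ℕ → ℕ} {s : ℕ} (h : ∀ x < s, β' x = β x) {n : ℕ} (hn : n < s) :
    XB β' n = XB β n := by
  unfold XB
  rw [h n.unpair.1 (lt_of_le_of_lt (Nat.unpair_left_le n) hn),
    h n.unpair.2 (lt_of_le_of_lt (Nat.unpair_right_le n) hn)]

theorem step (hΦ : ContinuousOn Φ SADS.dom)
    (hΨ : ContinuousOn Ψ {p | p.1 ∈ SADS.dom ∧ p.2 ∈ SADC.sol (Φ p.1)})
    (h : ∀ X ∈ SADS.dom, Φ X ∈ SADC.dom ∧ ∀ S ∈ SADC.sol (Φ X), Ψ (X, S) ∈ SADS.sol X)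
    {β : ℕ → ℕ} (hβ : Monotone β) {C : ℕ} (hC : ∀ y, β y ≤ C) (s t : ℕ) :
    ∃ (F G : Finset ℕ) (s' t' : ℕ), s < s' ∧ t ≤ t' ∧ (∀ x ∈ F, t ≤ x ∧ x < t') ∧
      (∀ x ∈ G, t ≤ x ∧ x < t') ∧ ∀ β' : ℕ → ℕ, Monotone β' → (∀ C, ∃ y, C < β' y) →
        (∀ x < s', β' x = β x) → Good Φ F G t' β' := by
  classical
  have hX : XB β ∈ SADS.dom := XB_mem hβ
  have hM : Φ (XB β) ∈ StableLO := (h _ hX).1
  obtain ⟨d, hd⟩ := exists_W hM
  -- the two solutions
  have cont : ∀ A : Set ℕ, A ⊆ W d (Φ (XB β)) → A.Infinite → ∃ N a₀ a₁, a₀ < N ∧ a₁ < N ∧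
      ∀ β' : ℕ → ℕ, Monotone β' → (∀ C, ∃ y, C < β' y) → (∀ x < N, β' x = β x) →
        ∀ S ∈ SADC.sol (Φ (XB β')), ¬ ∀ x < N, S x = ind A x := by
    intro A hA hA'
    have hS : ind A ∈ SADC.sol (Φ (XB β)) := chain_sol (by rw [supp_ind]; exact hA)
      (by rw [supp_ind]; exact hA')
    have hD : (XB β, ind A) ∈ {p : (ℕ → ℕ) × (ℕ → ℕ) |
        p.1 ∈ SADS.dom ∧ p.2 ∈ SADC.sol (Φ p.1)} := ⟨hX, hS⟩
    obtain ⟨N, hN⟩ := modulus₂ hΨ hD 2
    have ha := (h _ hX).2 _ hS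
    obtain ⟨h1, h2⟩ := asc_of_bdd hC ha
    set a := Ψ (XB β, ind A)
    refine ⟨max N (max (a 0 + 1) (a 1 + 1)), a 0, a 1, by omega, by omega, ?_⟩
    intro β' hβ' hun hag S hS' hSA
    have hX' : XB β' ∈ SADS.dom := XB_mem hβ'
    have key := hN (XB β') S ⟨hX', hS'⟩
      (fun k hk => XB_congr hag (lt_of_lt_of_le hk (le_max_left _ _)))
      (fun k hk => hSA k (lt_of_lt_of_le hk (le_max_left _ _)))
    have ha' := (h _ hX').2 _ hS'
    have h3 := desc_of_unbdd hβ' hun ha'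
    rw [key 0 (by omega), key 1 (by omega)] at h3
    have h3' : rel (XB β') (a 1) (a 0) := h3
    rw [rel_XB, hag (a 0) (by omega), hag (a 1) (by omega)] at h3'
    rw [rel_XB] at h2
    omega
  obtain ⟨N1, a0, a1, -, -, hN1⟩ := cont (W d (Φ (XB β)) ∩ Set.Ici t) Set.inter_subset_left
    (by
      intro hf
      apply hd
      refine (hf.union (Set.finite_Iio t)).subset fun x hx => ?_
      by_cases hc : t ≤ x
      · exact Or.inl ⟨hx, hc⟩
      · exact Or.inr (by simpa using hc))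
  obtain ⟨t1, ht1⟩ : ∃ t1, t1 = max N1 t := ⟨_, rfl⟩
  obtain ⟨F, hF⟩ : ∃ F : Finset ℕ, F = (Finset.range t1).filter
      (fun x => x ∈ W d (Φ (XB β)) ∧ t ≤ x) := ⟨_, rfl⟩
  have memF : ∀ x, x ∈ F ↔ x < t1 ∧ x ∈ W d (Φ (XB β)) ∧ t ≤ x := by
    intro x; rw [hF]; simp
  obtain ⟨B, hB⟩ : ∃ B : Set ℕ, B = {x | x ∈ W d (Φ (XB β)) ∧ t1 ≤ x ∧
      ∀ f ∈ F, R d (Φ (XB β)) f x} := ⟨_, rfl⟩
  have hBinf : B.Infinite := by
    intro hf
    apply hd
    have h1 : (⋃ f ∈ F, {y | R d (Φ (XB β)) y f}).Finite :=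
      Set.Finite.biUnion (Finset.finite_toSet F) fun f hf => ((memF f).1 hf).2.1.2
    refine ((hf.union (Set.finite_Iio t1)).union h1).subset fun x hx => ?_
    by_cases hc : t1 ≤ x
    swap
    · exact Or.inl (Or.inr (by simpa using hc))
    by_cases hc2 : ∀ f ∈ F, R d (Φ (XB β)) f x
    · exact Or.inl (Or.inl (by rw [hB]; exact ⟨hx, hc, hc2⟩))
    · push Not at hc2
      obtain ⟨f, hf, hf'⟩ := hc2
      right
      simp only [Set.mem_iUnion]
      refine ⟨f, hf, ?_⟩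
      exact (R_total hM ((memF f).1 hf).2.1.1 hx.1).resolve_left hf'
  obtain ⟨N2, b0, b1, -, -, hN2⟩ := cont B (by rw [hB]; exact fun x hx => hx.1) hBinf
  obtain ⟨t2, ht2⟩ : ∃ t2, t2 = max N2 t1 := ⟨_, rfl⟩
  obtain ⟨G, hG⟩ : ∃ G : Finset ℕ, G = (Finset.range t2).filter (fun x => x ∈ B) := ⟨_, rfl⟩
  have memG : ∀ x, x ∈ G ↔ x < t2 ∧ x ∈ W d (Φ (XB β)) ∧ t1 ≤ x ∧
      ∀ f ∈ F, R d (Φ (XB β)) f x := by
    intro x; rw [hG, Finset.mem_filter, Finset.mem_range, hB]; exact Iff.rfl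
  obtain ⟨N3, hN3⟩ := modulus hΦ hX ((t2 + 1) ^ 2)
  refine ⟨F, G, max (max N1 N2) (max N3 (s + 1)), t2, by omega, by omega, ?_, ?_, ?_⟩
  · intro x hx
    have := (memF x).1 hx
    exact ⟨this.2.2, by omega⟩
  · intro x hx
    have := (memG x).1 hx
    exact ⟨by omega, this.1⟩
  intro β' hβ' hun hag
  have hX' : XB β' ∈ SADS.dom := XB_mem hβ'
  have agr : ∀ x y, x ≤ t2 → y ≤ t2 →
      Φ (XB β') (Nat.pair x y) = Φ (XB β) (Nat.pair x y) := by
    intro x y hx hy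
    refine hN3 (XB β') hX' (fun k hk => XB_congr hag (by omega)) _ ?_
    have h1 := Nat.pair_lt_max_add_one_sq x y
    have h2 : max x y + 1 ≤ t2 + 1 := by
      have := max_le hx hy
      omega
    exact lt_of_lt_of_le h1 (Nat.pow_le_pow_left h2 2)
  have fld : ∀ x ≤ t2, x ∈ field (Φ (XB β)) → x ∈ field (Φ (XB β')) := by
    intro x hx hx'
    change Φ (XB β') (Nat.pair x x) ≠ 0
    rw [agr x x hx hx]
    exact hx'
  refine ⟨fun x hx => ?_, fun x hx => ?_, ⟨d, fun f hf g hg => ?_⟩, ?_, ?_⟩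
  · have := (memF x).1 hx
    exact fld x (by omega) this.2.1.1
  · have := (memG x).1 hx
    exact fld x (by omega) this.2.1.1
  · have h1 := (memF f).1 hf
    have h2 := (memG g).1 hg
    exact R_congr (agr f g (by omega) (by omega)) (agr g f (by omega) (by omega)) (h2.2.2.2 f hf)
  · intro S hS hSF
    refine hN1 β' hβ' hun (fun x hx => hag x (by omega)) S hS fun x hx => ?_
    rw [hSF x (by omega)]
    have : x ∈ (F : Set ℕ) ↔ x ∈ W d (Φ (XB β)) ∩ Set.Ici t := by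
      rw [Finset.mem_coe, memF]
      exact ⟨fun h => h.2, fun h => ⟨by omega, h⟩⟩
    unfold ind
    by_cases hc : x ∈ (F : Set ℕ)
    · rw [if_pos hc, if_pos (this.1 hc)]
    · rw [if_neg hc, if_neg (fun h => hc (this.2 h))]
  · intro S hS hSG
    refine hN2 β' hβ' hun (fun x hx => hag x (by omega)) S hS fun x hx => ?_
    rw [hSG x (by omega)]
    have : x ∈ (G : Set ℕ) ↔ x ∈ B := by
      rw [Finset.mem_coe, hG]
      simp only [Finset.mem_filter, Finset.mem_range]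
      exact ⟨fun h => h.2, fun h => ⟨by omega, h⟩⟩
    unfold ind
    by_cases hc : x ∈ (G : Set ℕ)
    · rw [if_pos hc, if_pos (this.1 hc)]
    · rw [if_neg hc, if_neg (fun h => hc (this.2 h))]

/-- a stage of the construction -/
structure St where
  /-- the block function -/
  β : ℕ → ℕ
  mono : Monotone β
  bdd : ∃ C, ∀ y, β y ≤ C
  /-- the length of the part of the order which is decided -/
  s : ℕ
  /-- the length of the part of the solutions used so far -/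
  t : ℕ

/-- one step of the construction -/
def Step (Φ : (ℕ → ℕ) → (ℕ → ℕ)) (σ : St) (q : St × Finset ℕ × Finset ℕ) : Prop :=
  σ.s < q.1.s ∧ σ.t ≤ q.1.t ∧ (∀ x < q.1.s, q.1.β x = σ.β x) ∧
    (∀ x, q.1.s ≤ x → ∀ y, σ.β y < q.1.β x) ∧
    (∀ x ∈ q.2.1, σ.t ≤ x ∧ x < q.1.t) ∧ (∀ x ∈ q.2.2, σ.t ≤ x ∧ x < q.1.t) ∧
    ∀ β' : ℕ → ℕ, Monotone β' → (∀ C, ∃ y, C < β' y) → (∀ x < q.1.s, β' x = σ.β x) →
      Good Φ q.2.1 q.2.2 q.1.t β'

theorem no_red (hΦ : ContinuousOn Φ SADS.dom)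
    (hΨ : ContinuousOn Ψ {p | p.1 ∈ SADS.dom ∧ p.2 ∈ SADC.sol (Φ p.1)})
    (h : ∀ X ∈ SADS.dom, Φ X ∈ SADC.dom ∧ ∀ S ∈ SADC.sol (Φ X), Ψ (X, S) ∈ SADS.sol X) :
    False := by
  classical
  have next : ∀ σ : St, ∃ q, Step Φ σ q := by
    intro σ
    obtain ⟨C, hC⟩ := σ.bdd
    obtain ⟨F, G, s', t', h1, h2, h3, h4, h5⟩ := step hΦ hΨ h σ.mono hC σ.s σ.t
    refine ⟨(⟨fun x => if x < s' then σ.β x else C + 1, ?_, ⟨C + 1, ?_⟩, s', t'⟩, F, G), h1, h2,
      ?_, ?_, h3, h4, h5⟩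
    · intro x y hxy
      dsimp only
      have := σ.mono hxy
      have := hC x
      split_ifs <;> omega
    · intro y
      have := hC y
      change (if y < s' then σ.β y else C + 1) ≤ C + 1
      split_ifs <;> omega
    · intro x hx
      exact if_pos hx
    · intro x hx y
      have := hC y
      have e : (if x < s' then σ.β x else C + 1) = C + 1 := if_neg (by simpa using hx)
      change σ.β y < (if x < s' then σ.β x else C + 1)
      rw [e]
      omega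
  choose nx hnx using next
  let q : ℕ → St := fun n => (fun σ => (nx σ).1)^[n] ⟨fun _ => 0, monotone_const, ⟨0, by simp⟩, 0, 0⟩
  have hq : ∀ n, q (n + 1) = (nx (q n)).1 := fun n => by
    simp only [q, Function.iterate_succ_apply']
  have hs : StrictMono fun n => (q n).s := strictMono_nat_of_lt_succ fun n => by
    rw [hq]; exact (hnx (q n)).1
  have ht : Monotone fun n => (q n).t := monotone_nat_of_le_succ fun n => by
    rw [hq]; exact (hnx (q n)).2.1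
  have hagr : ∀ n x, x < (q (n + 1)).s → ∀ m, n ≤ m → (q m).β x = (q n).β x := by
    intro n x hx m hm
    induction hm with
    | refl => rfl
    | @step m hm ih =>
      rw [Nat.succ_eq_add_one, ← ih]
      have h1 := (hnx (q m)).2.2.1 x
      rw [← hq] at h1
      refine h1 (lt_of_lt_of_le hx ?_)
      exact hs.monotone (Nat.succ_le_succ hm)
  have hsx : ∀ x, x < (q (x + 1)).s := fun x => hs.le_apply (x := x + 1)
  obtain ⟨β, hβ⟩ : ∃ β : ℕ → ℕ, β = fun x => (q x).β x := ⟨_, rfl⟩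
  have hβn : ∀ n x, x < (q (n + 1)).s → β x = (q n).β x := by
    intro n x hx
    rw [hβ]
    rcases le_total x n with hxn | hxn
    · exact (hagr x x (hsx x) n hxn).symm
    · exact hagr n x hx x hxn
  have hmono : Monotone β := by
    intro x y hxy
    rw [hβn y x (lt_of_le_of_lt hxy (hsx y)), hβn y y (hsx y)]
    exact (q y).mono hxy
  have hinc : ∀ n, n ≤ β ((q n).s) := by
    intro n
    induction n with
    | zero => omega
    | succ n ih =>
      rw [hβn n (q n).s (hs (by omega : n < n + 1))] at ih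
      rw [hβn (n + 1) (q (n + 1)).s (hs (by omega : n + 1 < n + 1 + 1))]
      have h1 := (hnx (q n)).2.2.2.1
      rw [← hq] at h1
      have := h1 _ le_rfl (q n).s
      omega
  have hun : ∀ C, ∃ y, C < β y := fun C => ⟨_, Nat.lt_of_succ_le (hinc (C + 1))⟩
  have hgood : ∀ n, Good Φ (nx (q n)).2.1 (nx (q n)).2.2 (q (n + 1)).t β := by
    intro n
    have h1 := (hnx (q n)).2.2.2.2.2.2 β hmono hun
    rw [← hq] at h1
    exact h1 fun x hx => hβn n x hx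
  have hM : Φ (XB β) ∈ StableLO := (h _ (XB_mem hmono)).1
  -- extendibility
  have ext : ∀ (d : Bool) (F : Finset ℕ) (t : ℕ), (W d (Φ (XB β))).Infinite →
      (∀ x ∈ F, x < t) → (∀ x ∈ F, x ∈ W d (Φ (XB β))) →
      ∃ S ∈ SADC.sol (Φ (XB β)), ∀ x < t, S x = ind (F : Set ℕ) x := by
    intro d F t hinf hFt hFW
    refine ⟨ind ((F : Set ℕ) ∪ (W d (Φ (XB β)) ∩ Set.Ici t)), chain_sol (d := d) ?_ ?_, ?_⟩
    · rw [supp_ind]
      rintro x (hx | hx)
      · exact hFW x hx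
      · exact hx.1
    · rw [supp_ind]
      intro hf
      apply hinf
      refine (hf.union (Set.finite_Iio t)).subset fun x hx => ?_
      by_cases hc : t ≤ x
      · exact Or.inl (Or.inr ⟨hx, hc⟩)
      · exact Or.inr (by simpa using hc)
    · intro x hx
      have : x ∈ ((F : Set ℕ) ∪ (W d (Φ (XB β)) ∩ Set.Ici t)) ↔ x ∈ (F : Set ℕ) := by
        refine ⟨fun h' => h'.resolve_right fun h'' => ?_, Or.inl⟩
        have h3 : t ≤ x := h''.2
        omega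
      unfold ind
      by_cases hc : x ∈ (F : Set ℕ)
      · rw [if_pos hc, if_pos (this.2 hc)]
      · rw [if_neg hc, if_neg (fun h => hc (this.1 h))]
  have tF : ∀ n, ∀ x ∈ (nx (q n)).2.1, (q n).t ≤ x ∧ x < (q (n + 1)).t := fun n => by
    rw [hq]; exact (hnx (q n)).2.2.2.2.1
  have tG : ∀ n, ∀ x ∈ (nx (q n)).2.2, (q n).t ≤ x ∧ x < (q (n + 1)).t := fun n => by
    rw [hq]; exact (hnx (q n)).2.2.2.2.2.1
  have nF : ∀ (d : Bool) n, (W d (Φ (XB β))).Infinite →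
      ∃ x ∈ (nx (q n)).2.1, x ∉ W d (Φ (XB β)) := by
    intro d n hinf
    by_contra hc
    push Not at hc
    obtain ⟨S, hS, hS'⟩ := ext d _ _ hinf (fun x hx => (tF n x hx).2) hc
    exact (hgood n).2.2.2.1 S hS hS'
  have nG : ∀ (d : Bool) n, (W d (Φ (XB β))).Infinite →
      ∃ x ∈ (nx (q n)).2.2, x ∉ W d (Φ (XB β)) := by
    intro d n hinf
    by_contra hc
    push Not at hc
    obtain ⟨S, hS, hS'⟩ := ext d _ _ hinf (fun x hx => (tG n x hx).2) hc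
    exact (hgood n).2.2.2.2 S hS hS'
  obtain ⟨d, hd⟩ := exists_W hM
  have hd' : (W (!d) (Φ (XB β))).Infinite := by
    choose x hx hx' using fun n => nF d n hd
    have hxm : StrictMono x := strictMono_nat_of_lt_succ fun n =>
      lt_of_lt_of_le (tF n _ (hx n)).2 (tF (n + 1) _ (hx (n + 1))).1
    refine (Set.infinite_range_of_injective hxm.injective).mono ?_
    rintro _ ⟨n, rfl⟩
    exact (W_or hM d ((hgood n).1 _ (hx n))).resolve_left (hx' n)
  have hall : ∀ e, (W e (Φ (XB β))).Infinite := by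
    intro e
    by_cases he : e = d
    · rw [he]; exact hd
    · have : e = !d := by cases e <;> cases d <;> simp_all
      rw [this]; exact hd'
  obtain ⟨e, he⟩ := (hgood 0).2.2.1
  obtain ⟨f, hf, hf'⟩ := nF e 0 (hall e)
  obtain ⟨g, hg, hg'⟩ := nG (!e) 0 (hall _)
  have hgW : g ∈ W e (Φ (XB β)) := (W_or hM e ((hgood 0).2.1 g hg)).resolve_right hg'
  refine hf' ⟨(hgood 0).1 f hf, hgW.2.subset fun y hy => ?_⟩
  exact R_trans hM hy (he f hf g hg)

end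

/-! ### The functionals are continuous -/

theorem continuous_of_functional {Φ : (ℕ → ℕ) → ℕ → ℕ} (h : PrimrecFunctional Φ) :
    Continuous Φ := by
  obtain ⟨u, g, -, -, hg⟩ := h
  refine continuous_pi fun n => ?_
  have h1 : (fun X : ℕ → ℕ => Φ X n) =
      (fun v : Fin (u n) → ℕ => g (List.ofFn v) n) ∘ fun (X : ℕ → ℕ) (i : Fin (u n)) => X i := by
    funext X
    rw [hg, Function.comp_apply]
    congr 1
    refine List.ext_getElem (by simp) fun i h1 h2 => ?_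
    simp
  rw [h1]
  exact continuous_of_discreteTopology.comp (continuous_pi fun i => continuous_apply _)

/-- `SADS` is not continuously reducible to `P`. -/
theorem not_SADS_le_P : ¬ ContRed SADS PP := by
  rintro ⟨Φ, Ψ, h1, h2, h3⟩
  refine no_red (Φ := fun X => Phi (Φ X)) (Ψ := Ψ) ?_ ?_ ?_
  · exact (continuous_of_functional PhiFun).comp_continuousOn h1
  · refine h2.mono ?_
    rintro ⟨X, S⟩ ⟨hX, hS⟩
    exact ⟨hX, sol_Phi (h3 X hX).1 hS⟩
  · intro X hX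
    exact ⟨Phi_mem (h3 X hX).1, fun S hS => (h3 X hX).2 S (sol_Phi (h3 X hX).1 hS)⟩

end Pool.Agent.KS6_32.LX.G
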